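import Pool.Agent.Helper1.MT.Defs

/-!
# Project MT, module N2: combinatorial lemmas on colourings
-/

set_option autoImplicit false

open Finset

namespace Pool.Agent.Helper83.MT

open Pool.Agent.Helper1.MT

section Abstract

variable {ι κ : Type} [Fintype ι] [Fintype κ] [DecidableEq ι] [DecidableEq κ]

theorem le_of_inv_prod {w : ι → ℝ} {c c' : ι → Option κ}
    (h : ∏ p, inv (w p) (c p) (c' p) ≠ 0) : Le c c' := by
  intro p
  rw [Finset.prod_ne_zero_iff] at h
  have h1 := h p (mem_univ p)
  cases hc : c p with
  | none => left; rfl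
  | some i =>
    right
    rw [hc] at h1
    cases hc' : c' p with
    | none => rw [hc'] at h1; simp [inv] at h1
    | some j =>
      rw [hc'] at h1
      by_contra hne
      apply h1
      have : i ≠ j := fun h => hne (by rw [h])
      simp [inv, this]

theorem exists_of_lam_ne_zero {w : ι → ℝ} {y : (ι → Option κ) → ℝ} {c : ι → Option κ}
    (h : lam w y c ≠ 0) : ∃ c', Le c c' ∧ y c' ≠ 0 := by
  unfold lam at h
  obtain ⟨c', _, hc'⟩ := Finset.exists_ne_zero_of_sum_ne_zero h
  exact ⟨c', le_of_inv_prod (left_ne_zero_of_mul hc'), right_ne_zero_of_mul hc'⟩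

theorem supp_subset_of_le {c c' : ι → Option κ} (h : Le c c') : supp c ⊆ supp c' := by
  intro p hp
  unfold supp at hp ⊢
  rw [mem_filter] at hp ⊢
  refine ⟨mem_univ _, ?_⟩
  rcases h p with h | h
  · exact absurd h hp.2
  · rw [← h]; exact hp.2

theorem sum_abs_inv_le (w : ℝ) (hw : 0 ≤ w) (a : Option κ) :
    ∑ b : Option κ, |inv w a b| ≤ 1 + Fintype.card κ * w := by
  rw [Fintype.sum_option]
  cases a with
  | none =>
    simp only [inv, abs_one, abs_neg, sum_const, card_univ, nsmul_eq_mul]
    rw [abs_of_nonneg hw]
  | some i =>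
    simp only [inv, abs_zero, zero_add]
    have : ∑ x : κ, |if i = x then (1 : ℝ) else 0| = 1 := by
      rw [Finset.sum_eq_single i]
      · simp
      · intro b _ hb
        simp [Ne.symm hb]
      · intro h; exact absurd (mem_univ i) h
    rw [this]
    have : 0 ≤ (Fintype.card κ : ℝ) * w := by positivity
    linarith

theorem abs_lam_le {w : ι → ℝ} (hw : ∀ p, 0 ≤ w p) {y : (ι → Option κ) → ℝ}
    (hy : ∀ c, |y c| ≤ 1) (c : ι → Option κ) :
    |lam w y c| ≤ ∏ p, (1 + Fintype.card κ * w p) := by
  unfold lam
  calc |∑ c' : ι → Option κ, (∏ p, inv (w p) (c p) (c' p)) * y c'|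
      ≤ ∑ c' : ι → Option κ, |(∏ p, inv (w p) (c p) (c' p)) * y c'| :=
        Finset.abs_sum_le_sum_abs _ _
    _ ≤ ∑ c' : ι → Option κ, ∏ p, |inv (w p) (c p) (c' p)| := by
        apply Finset.sum_le_sum
        intro c' _
        rw [abs_mul, Finset.abs_prod]
        exact mul_le_of_le_one_right (Finset.prod_nonneg fun _ _ => abs_nonneg _) (hy c')
    _ = ∏ p, ∑ b : Option κ, |inv (w p) (c p) b| := by
        rw [Finset.prod_univ_sum, Fintype.piFinset_univ]
    _ ≤ ∏ p, (1 + Fintype.card κ * w p) := by
        apply Finset.prod_le_prod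
        · intro p _
          exact Finset.sum_nonneg fun _ _ => abs_nonneg _
        · intro p _
          exact sum_abs_inv_le _ (hw p) _

theorem mem_supp {c : ι → Option κ} {p : ι} : p ∈ supp c ↔ c p ≠ none := by
  unfold supp
  rw [mem_filter]
  exact ⟨fun h => h.2, fun h => ⟨mem_univ _, h⟩⟩

theorem supp_join (c c' : ι → Option κ) : supp (join c c') = supp c ∪ supp c' := by
  ext p
  rw [mem_union, mem_supp, mem_supp, mem_supp]
  unfold join
  cases hc : c p with
  | none => simp
  | some i => simp

/-- The possible pairs of colours at a point of the support. -/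
def opts (κ : Type) [Fintype κ] [DecidableEq κ] : Finset (Option κ × Option κ) :=
  ((univ : Finset κ).image fun i => ((some i, none) : Option κ × Option κ)) ∪
    (((univ : Finset κ).image fun i => ((none, some i) : Option κ × Option κ)) ∪
      ((univ : Finset κ).image fun i => ((some i, some i) : Option κ × Option κ)))

theorem card_opts_le : (opts κ).card ≤ 3 * Fintype.card κ := by
  unfold opts
  refine (Finset.card_union_le _ _).trans ?_
  have h1 : ((univ : Finset κ).image fun i => ((some i, none) : Option κ × Option κ)).card ≤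
      Fintype.card κ := Finset.card_image_le
  have h2 := (Finset.card_union_le ((univ : Finset κ).image fun i =>
    ((none, some i) : Option κ × Option κ)) ((univ : Finset κ).image fun i =>
    ((some i, some i) : Option κ × Option κ)))
  have h3 : ((univ : Finset κ).image fun i => ((none, some i) : Option κ × Option κ)).card ≤
      Fintype.card κ := Finset.card_image_le
  have h4 : ((univ : Finset κ).image fun i => ((some i, some i) : Option κ × Option κ)).card ≤
      Fintype.card κ := Finset.card_image_le
  omega

open Classical in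
theorem card_pairs_le (S : Finset ι) :
    ((univ : Finset ((ι → Option κ) × (ι → Option κ))).filter
      (fun z => Compat z.1 z.2 ∧ supp (join z.1 z.2) = S)).card ≤ (3 * Fintype.card κ) ^ S.card := by
  have h1 : (Fintype.piFinset (fun p : ι => if p ∈ S then opts κ else
      {((none, none) : Option κ × Option κ)})).card ≤ (3 * Fintype.card κ) ^ S.card := by
    rw [Fintype.card_piFinset]
    have h2 : ∀ p ∈ (univ : Finset ι), (if p ∈ S then opts κ else
        {((none, none) : Option κ × Option κ)}).card ≤
          if p ∈ S then 3 * Fintype.card κ else 1 := by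
      intro p _
      split_ifs
      · exact card_opts_le
      · simp
    refine (Finset.prod_le_prod (fun _ _ => Nat.zero_le _) h2).trans ?_
    rw [Finset.prod_ite]
    simp
  refine le_trans ?_ h1
  apply Finset.card_le_card_of_injOn (fun z p => (z.1 p, z.2 p))
  · intro z hz
    rw [Finset.mem_coe, Finset.mem_filter] at hz
    rw [Finset.mem_coe, Fintype.mem_piFinset]
    intro p
    obtain ⟨_, hcomp, hS⟩ := hz
    have hp := hcomp p
    have hmem : p ∈ S ↔ (z.1 p ≠ none ∨ z.2 p ≠ none) := by
      rw [← hS, supp_join, mem_union, mem_supp, mem_supp]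
    split_ifs with h
    · rw [hmem] at h
      unfold opts
      rw [mem_union, mem_union, mem_image, mem_image, mem_image]
      dsimp only
      cases h1 : z.1 p with
      | none =>
        cases h2 : z.2 p with
        | none =>
          rw [h1, h2] at h
          simp at h
        | some j => right; left; exact ⟨j, mem_univ _, rfl⟩
      | some i =>
        cases h2 : z.2 p with
        | none => left; exact ⟨i, mem_univ _, rfl⟩
        | some j =>
          right; right
          rw [h1, h2] at hp
          simp at hp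
          exact ⟨i, mem_univ _, by rw [hp]⟩
    · rw [hmem] at h
      push Not at h
      rw [mem_singleton]
      dsimp only
      rw [h.1, h.2]
  · intro z _ z' _ h
    ext p : 2
    · exact congrArg Prod.fst (congrFun h p)
    · exact congrArg Prod.snd (congrFun h p)

open Classical in
theorem sum_pairs_le (G : Finset ι → ℝ) (hG : ∀ S, 0 ≤ G S) :
    ∑ c : ι → Option κ, ∑ c' : ι → Option κ,
      (if Compat c c' then G (supp (join c c')) else 0) ≤
      ∑ S : Finset ι, (3 * Fintype.card κ : ℝ) ^ S.card * G S := by
  rw [← Finset.sum_product']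
  rw [show (univ : Finset (ι → Option κ)) ×ˢ (univ : Finset (ι → Option κ)) = univ from
    Finset.univ_product_univ]
  have h1 : ∀ z : (ι → Option κ) × (ι → Option κ),
      (if Compat z.1 z.2 then G (supp (join z.1 z.2)) else 0) =
      ∑ S : Finset ι, if Compat z.1 z.2 ∧ supp (join z.1 z.2) = S then G S else 0 := by
    intro z
    by_cases hz : Compat z.1 z.2
    · simp [hz]
    · simp [hz]
  rw [Finset.sum_congr rfl (fun z _ => h1 z), Finset.sum_comm]
  apply Finset.sum_le_sum
  intro S _
  rw [← Finset.sum_filter, Finset.sum_const, nsmul_eq_mul]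
  apply mul_le_mul_of_nonneg_right _ (hG S)
  have := card_pairs_le (ι := ι) (κ := κ) S
  calc _ ≤ (((3 * Fintype.card κ) ^ S.card : ℕ) : ℝ) := by exact_mod_cast this
    _ = _ := by push_cast; rfl

theorem Qf_nonneg {P : ι → Option κ → ℝ} (hP : ∀ p a, 0 ≤ P p a) (f : (ι → Option κ) → ℝ) :
    0 ≤ Qf P f := by
  unfold Qf
  exact Finset.sum_nonneg fun σ _ => mul_nonneg (Finset.prod_nonneg fun p _ => hP _ _)
    (sq_nonneg _)

theorem sum_prm (m : κ) (w : ℝ) : ∑ a : Option κ, prm m w a = 1 := by
  rw [Fintype.sum_option]
  simp only [prm]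
  have h : ∑ x : κ, (if x = m then (0 : ℝ) else w) = (Fintype.card κ - 1) * w := by
    have h1 : ∀ x : κ, (if x = m then (0 : ℝ) else w) = w - if x = m then w else 0 := by
      intro x
      split_ifs <;> ring
    rw [Finset.sum_congr rfl (fun x _ => h1 x), Finset.sum_sub_distrib, Finset.sum_const,
      Finset.card_univ, nsmul_eq_mul, Finset.sum_ite_eq' univ m]
    simp
    ring
  rw [h]
  ring

end Abstract

/-- Choice of a residue class with maximal error for every modulus. -/
theorem exists_max_class (e : ℕ → ℕ → ℝ) (he : ∀ d a, e d (a % d) = e d a) :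
    ∃ c : ℕ → ℕ, (∀ d, Nat.Coprime (c d) d) ∧ ∀ d a, Nat.Coprime a d → e d a ≤ e d (c d) := by
  have h : ∀ d : ℕ, ∃ c : ℕ, Nat.Coprime c d ∧ ∀ a, Nat.Coprime a d → e d a ≤ e d c := by
    intro d
    rcases Nat.eq_zero_or_pos d with rfl | hd
    · refine ⟨1, by simp, ?_⟩
      intro a ha
      rw [Nat.coprime_zero_right] at ha
      rw [ha]
    · obtain ⟨c, hc, hmax⟩ := Finset.exists_max_image
        ((range (d + 1)).filter (fun a => Nat.Coprime a d)) (e d)
        ⟨1, by rw [mem_filter, mem_range]; exact ⟨by omega, by simp⟩⟩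
      rw [mem_filter] at hc
      refine ⟨c, hc.2, ?_⟩
      intro a ha
      rw [← he d a]
      apply hmax
      rw [mem_filter, mem_range]
      refine ⟨by have := Nat.mod_lt a hd; omega, ?_⟩
      unfold Nat.Coprime at ha ⊢
      rw [← ha, Nat.gcd_comm a d, Nat.gcd_rec d a]
  choose c hc using h
  exact ⟨c, fun d => (hc d).1, fun d a ha => (hc d).2 a ha⟩

end Pool.Agent.Helper83.MT
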