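import Pool.Agent.Helper1.MT.Defs

/-!
# Project MT, module N2: arithmetic of the moduli
-/

set_option autoImplicit false

open Finset

namespace Pool.Agent.Helper83.MT

open Pool.Agent.Helper1.MT

variable {R W : ℕ}

theorem PS_prime (p : PS R W) : (p : ℕ).Prime := by
  have := p.2
  unfold PS at this
  exact (Finset.mem_filter.1 this).2.1

theorem PS_not_dvd (p : PS R W) : ¬ (p : ℕ) ∣ W := by
  have := p.2
  unfold PS at this
  exact (Finset.mem_filter.1 this).2.2

theorem PS_le (p : PS R W) : (p : ℕ) ≤ R := by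
  have := p.2
  unfold PS at this
  exact Nat.lt_succ_iff.1 (Finset.mem_range.1 (Finset.mem_filter.1 this).1)

theorem PS_ge {κ : Type} {D0 : ℕ} {h : κ → ℕ} {v : ℕ} (hS : Setup D0 h W v) (p : PS R W) :
    D0 ≤ (p : ℕ) := by
  by_contra hlt
  exact PS_not_dvd p (hS.small p (PS_prime p) (not_le.1 hlt))

theorem coprime_step (S : Finset (PS R W)) (p : PS R W) (hp : p ∉ S) :
    Nat.Coprime (W * ∏ q ∈ S, (q : ℕ)) p := by
  rw [Nat.coprime_mul_iff_left]
  refine ⟨((PS_prime p).coprime_iff_not_dvd.2 (PS_not_dvd p)).symm, ?_⟩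
  apply Nat.Coprime.prod_left
  intro q hq
  rw [Nat.coprime_primes (PS_prime q) (PS_prime p)]
  intro heq
  apply hp
  have : q = p := Subtype.ext heq
  rwa [← this]

theorem totient_mul_prod (S : Finset (PS R W)) :
    ((W * ∏ p ∈ S, (p : ℕ)).totient : ℝ) = W.totient * ∏ p ∈ S, (((p : ℕ) : ℝ) - 1) := by
  classical
  induction S using Finset.induction_on with
  | empty => simp
  | insert p S hp ih =>
    rw [Finset.prod_insert hp, Finset.prod_insert hp]
    have h1 : W * ((p : ℕ) * ∏ q ∈ S, (q : ℕ)) = (W * ∏ q ∈ S, (q : ℕ)) * p := by ring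
    rw [h1, Nat.totient_mul (coprime_step S p hp), Nat.totient_prime (PS_prime p)]
    push_cast
    rw [ih, Nat.cast_sub (PS_prime p).one_le]
    push_cast
    ring

theorem crt {κ : Type} {D0 : ℕ} {h : κ → ℕ} {v : ℕ} (hS : Setup D0 h W v) (m : κ)
    (i : PS R W → κ) (S : Finset (PS R W)) (hi : ∀ p ∈ S, i p ≠ m) :
    ∃ a : ℕ, Nat.Coprime a (W * ∏ p ∈ S, (p : ℕ)) ∧
      ∀ n : ℕ, (n ≡ v [MOD W] ∧ ∀ p ∈ S, (p : ℕ) ∣ n + h (i p)) ↔
        n + h m ≡ a [MOD W * ∏ p ∈ S, (p : ℕ)] := by
  classical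
  induction S using Finset.induction_on with
  | empty =>
    refine ⟨v + h m, ?_, ?_⟩
    · rw [Finset.prod_empty, mul_one]
      exact hS.cop m
    · intro n
      rw [Finset.prod_empty, mul_one]
      constructor
      · rintro ⟨h1, -⟩
        exact h1.add_right _
      · intro h1
        exact ⟨Nat.ModEq.add_right_cancel' _ h1, by simp⟩
  | insert p S hp ih =>
    obtain ⟨a, ha1, ha2⟩ := ih (fun q hq => hi q (Finset.mem_insert_of_mem hq))
    have hpp := PS_prime p
    have hcop := coprime_step S p hp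
    set b : ℕ := h m + (p - 1) * h (i p) with hb
    obtain ⟨a', ha'1, ha'2⟩ := Nat.chineseRemainder hcop a b
    have h1 : W * ∏ q ∈ insert p S, (q : ℕ) = (W * ∏ q ∈ S, (q : ℕ)) * p := by
      rw [Finset.prod_insert hp]; ring
    have hpsplit : ((p : ℕ) - 1) + 1 = (p : ℕ) := Nat.sub_add_cancel hpp.one_le
    refine ⟨a', ?_, ?_⟩
    · rw [h1, Nat.coprime_mul_iff_right]
      constructor
      · have := ha'1.gcd_eq
        unfold Nat.Coprime
        rw [this]
        exact ha1
      · rw [Nat.coprime_comm, hpp.coprime_iff_not_dvd]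
        intro hdvd
        have h2 : (p : ℕ) ∣ b := (ha'2.dvd_iff (dvd_refl _)).1 hdvd
        have h3 : ((p : ℕ) : ℤ) ∣ (h m : ℤ) - h (i p) := by
          have h4 : ((p : ℕ) : ℤ) ∣ (b : ℤ) := by exact_mod_cast h2
          have h5 : (h m : ℤ) - h (i p) = b - (p : ℕ) * h (i p) := by
            rw [hb]
            push_cast [Nat.cast_sub hpp.one_le]
            ring
          rw [h5]
          exact dvd_sub h4 (dvd_mul_right _ _)
        exact PS_not_dvd p (hS.diff m (i p) (Ne.symm (hi p (Finset.mem_insert_self _ _))) p hpp h3)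
    · intro n
      rw [h1, ← Nat.modEq_and_modEq_iff_modEq_mul hcop]
      have h2 : (p : ℕ) ∣ n + h (i p) ↔ n + h m ≡ a' [MOD p] := by
        constructor
        · intro h3
          refine Nat.ModEq.trans ?_ ha'2.symm
          rw [hb, add_comm n]
          apply Nat.ModEq.add_left
          apply Nat.ModEq.add_right_cancel' (h (i p))
          have h4 : ((p : ℕ) - 1) * h (i p) + h (i p) = (p : ℕ) * h (i p) := by
            calc ((p : ℕ) - 1) * h (i p) + h (i p) = (((p : ℕ) - 1) + 1) * h (i p) := by ring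
              _ = _ := by rw [hpsplit]
          rw [h4]
          exact ((Nat.modEq_zero_iff_dvd.2 h3)).trans
            (Nat.modEq_zero_iff_dvd.2 (dvd_mul_right _ _)).symm
        · intro h3
          have h4 := h3.trans ha'2
          rw [hb, add_comm n] at h4
          have h5 := (Nat.ModEq.add_left_cancel' _ h4).add_right (h (i p))
          have h6 : ((p : ℕ) - 1) * h (i p) + h (i p) = (p : ℕ) * h (i p) := by
            calc ((p : ℕ) - 1) * h (i p) + h (i p) = (((p : ℕ) - 1) + 1) * h (i p) := by ring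
              _ = _ := by rw [hpsplit]
          rw [h6] at h5
          exact Nat.modEq_zero_iff_dvd.1 (h5.trans (Nat.modEq_zero_iff_dvd.2 (dvd_mul_right _ _)))
      constructor
      · rintro ⟨h3, h4⟩
        refine ⟨?_, ?_⟩
        · exact ((ha2 n).1 ⟨h3, fun q hq => h4 q (Finset.mem_insert_of_mem hq)⟩).trans ha'1.symm
        · exact h2.1 (h4 p (Finset.mem_insert_self _ _))
      · rintro ⟨h3, h4⟩
        have h5 := (ha2 n).2 (h3.trans ha'1)
        refine ⟨h5.1, ?_⟩
        intro q hq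
        rcases Finset.mem_insert.1 hq with rfl | hq
        · exact h2.2 h4
        · exact h5.2 q hq

theorem T_tp_eq (S : Finset (PS R W)) :
    T (tp R W) S = Real.log ((∏ p ∈ S, (p : ℕ) : ℕ) : ℝ) / Real.log R := by
  unfold T tp
  rw [← Finset.sum_div]
  congr 1
  push_cast
  rw [Real.log_prod]
  intro p _
  exact_mod_cast (PS_prime p).ne_zero

theorem prod_pos (S : Finset (PS R W)) : 0 < ∏ p ∈ S, (p : ℕ) :=
  Finset.prod_pos fun p _ => (PS_prime p).pos

theorem prod_le_of_T_le (hR : 2 ≤ R) {S : Finset (PS R W)} (hT : T (tp R W) S ≤ 1) :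
    ∏ p ∈ S, (p : ℕ) ≤ R := by
  have hR2 : (2 : ℝ) ≤ R := by exact_mod_cast hR
  have hlogR : 0 < Real.log R := Real.log_pos (by linarith)
  rw [T_tp_eq, div_le_one hlogR] at hT
  have h1 : (0 : ℝ) < ((∏ p ∈ S, (p : ℕ) : ℕ) : ℝ) := by exact_mod_cast prod_pos S
  have h2 := (Real.log_le_log_iff h1 (by linarith)).1 hT
  exact_mod_cast h2

theorem prod_le_prod_of_subset {S S' : Finset (PS R W)} (h : S ⊆ S') :
    ∏ p ∈ S, (p : ℕ) ≤ ∏ p ∈ S', (p : ℕ) :=
  Finset.prod_le_prod_of_subset_of_one_le' h fun p _ _ => (PS_prime p).one_le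

theorem prod_union_le (S S' : Finset (PS R W)) :
    ∏ p ∈ S ∪ S', (p : ℕ) ≤ (∏ p ∈ S, (p : ℕ)) * ∏ p ∈ S', (p : ℕ) := by
  classical
  have h1 := Finset.prod_union_inter (s₁ := S) (s₂ := S') (f := fun p : PS R W => (p : ℕ))
  calc ∏ p ∈ S ∪ S', (p : ℕ) ≤ (∏ p ∈ S ∪ S', (p : ℕ)) * ∏ p ∈ S ∩ S', (p : ℕ) :=
        Nat.le_mul_of_pos_right _ (prod_pos _)
    _ = _ := h1

/-- The set of the primes in `S`. -/
def toNat (S : Finset (PS R W)) : Finset ℕ := S.map (Function.Embedding.subtype _)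

theorem toNat_injective : Function.Injective (toNat : Finset (PS R W) → Finset ℕ) :=
  Finset.map_injective _

theorem toNat_card (S : Finset (PS R W)) : (toNat S).card = S.card := Finset.card_map _

theorem toNat_prod (S : Finset (PS R W)) : ∏ p ∈ toNat S, p = ∏ p ∈ S, (p : ℕ) := by
  unfold toNat
  rw [Finset.prod_map]
  rfl

theorem toNat_mem (S : Finset (PS R W)) : toNat S ∈ (PS R W).powerset := by
  rw [Finset.mem_powerset]
  intro p hp
  unfold toNat at hp
  rw [Finset.mem_map] at hp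
  obtain ⟨q, _, rfl⟩ := hp
  exact q.2

theorem prod_injective : Function.Injective (fun S : Finset (PS R W) => ∏ p ∈ S, (p : ℕ)) := by
  intro S S' h
  apply toNat_injective
  have h1 : ∀ S : Finset (PS R W), (∏ p ∈ S, (p : ℕ)).primeFactors = toNat S := by
    intro S
    rw [← toNat_prod, Nat.primeFactors_prod]
    intro p hp
    unfold toNat at hp
    rw [Finset.mem_map] at hp
    obtain ⟨q, _, rfl⟩ := hp
    exact PS_prime q
  rw [← h1, ← h1]
  exact congrArg _ h

/-- The weighted number of sets with small product. -/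
theorem sum_pow_card_le (k N : ℕ) (hk : ∀ p : PS R W, k ≤ (p : ℕ)) :
    ∑ S ∈ (univ : Finset (Finset (PS R W))).filter (fun S : Finset (PS R W) => ∏ p ∈ S, (p : ℕ) ≤ N),
      (k : ℝ) ^ S.card ≤ (N : ℝ) ^ 2 := by
  classical
  have h1 : ∀ S ∈ (univ : Finset (Finset (PS R W))).filter (fun S : Finset (PS R W) => ∏ p ∈ S, (p : ℕ) ≤ N),
      (k : ℝ) ^ S.card ≤ N := by
    intro S hS
    have h2 : k ^ S.card ≤ ∏ p ∈ S, (p : ℕ) := by
      rw [← Finset.prod_const]
      exact Finset.prod_le_prod' fun p _ => hk p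
    exact_mod_cast h2.trans (Finset.mem_filter.1 hS).2
  have h3 : ((univ : Finset (Finset (PS R W))).filter
      (fun S : Finset (PS R W) => ∏ p ∈ S, (p : ℕ) ≤ N)).card ≤ N := by
    have h4 : ((univ : Finset (Finset (PS R W))).filter
      (fun S : Finset (PS R W) => ∏ p ∈ S, (p : ℕ) ≤ N)).card ≤ (Icc 1 N).card := by
      apply Finset.card_le_card_of_injOn (fun S : Finset (PS R W) => ∏ p ∈ S, (p : ℕ))
      · intro S hS
        rw [Finset.mem_coe, Finset.mem_Icc]
        exact ⟨prod_pos S, (Finset.mem_filter.1 (Finset.mem_coe.1 hS)).2⟩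
      · intro S _ S' _ h
        exact prod_injective h
    simpa using h4
  calc _ ≤ ∑ S ∈ (univ : Finset (Finset (PS R W))).filter (fun S : Finset (PS R W) => ∏ p ∈ S, (p : ℕ) ≤ N),
        (N : ℝ) := Finset.sum_le_sum h1
    _ = (((univ : Finset (Finset (PS R W))).filter
      (fun S : Finset (PS R W) => ∏ p ∈ S, (p : ℕ) ≤ N)).card : ℝ) * N := by
        rw [Finset.sum_const, nsmul_eq_mul]
    _ ≤ (N : ℝ) * N := by
        apply mul_le_mul_of_nonneg_right _ (Nat.cast_nonneg _)
        exact_mod_cast h3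
    _ = (N : ℝ) ^ 2 := by ring

/-- The colour of `n` at `p`. -/
noncomputable def sig {κ : Type} (h : κ → ℕ) (n : ℕ) (p : PS R W) : Option κ := by
  classical exact if hp : ∃ i, (p : ℕ) ∣ n + h i then some hp.choose else none

theorem Dv_iff {κ : Type} {D0 : ℕ} {h : κ → ℕ} {v : ℕ} (hS : Setup D0 h W v)
    (c : PS R W → Option κ) (n : ℕ) : Dv h c n ↔ Le c (sig h n) := by
  classical
  have huniq : ∀ (p : PS R W) (i j : κ), (p : ℕ) ∣ n + h i → (p : ℕ) ∣ n + h j → i = j := by
    intro p i j hi hj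
    by_contra hne
    apply PS_not_dvd p
    apply hS.diff i j hne p (PS_prime p)
    have h1 : ((p : ℕ) : ℤ) ∣ ((n + h i : ℕ) : ℤ) := by exact_mod_cast hi
    have h2 : ((p : ℕ) : ℤ) ∣ ((n + h j : ℕ) : ℤ) := by exact_mod_cast hj
    have h3 : (h i : ℤ) - h j = ((n + h i : ℕ) : ℤ) - ((n + h j : ℕ) : ℤ) := by
      push_cast; ring
    rw [h3]
    exact dvd_sub h1 h2
  constructor
  · intro hD p
    cases hc : c p with
    | none => left; rfl
    | some i =>
      right
      have h1 := hD p i hc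
      have h2 : ∃ i, (p : ℕ) ∣ n + h i := ⟨i, h1⟩
      unfold sig
      rw [dif_pos h2, huniq p i _ h1 h2.choose_spec]
  · intro hL p i hc
    rcases hL p with h1 | h1
    · rw [hc] at h1; cases h1
    · rw [hc] at h1
      unfold sig at h1
      split_ifs at h1 with h2
      rw [Option.some.injEq] at h1
      rw [h1]
      exact h2.choose_spec

end Pool.Agent.Helper83.MT
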