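import Pool.Agent.Helper83.MT.Ana
import Pool.Agent.Helper83.MT.Crt

/-!
# Project MT, module N2: sums over the shifted primes in a residue class
-/

set_option autoImplicit false

open Finset
open scoped ArithmeticFunction.vonMangoldt

namespace Pool.Agent.Helper83.MT

open Pool.Agent.Helper1.MT
open Pool.Agent.Helper18.BV (wt IsWt)

/-- The weight of `n`: nonzero only if `n + H` is prime. -/
noncomputable def nu (g : ℝ → ℝ) (x : ℝ) (H n : ℕ) : ℝ :=
  if (n + H).Prime then Λ (n + H) * wt g x (n + H) else 0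

/-- The error for the class of `a` modulo `d`. -/
noncomputable def err (g : ℝ → ℝ) (x : ℝ) (d a : ℕ) : ℝ :=
  |∑ n ∈ (Icc 1 ⌊x⌋₊).filter (fun n => n ≡ a [MOD d]), Λ n * wt g x n -
    (1 / (d.totient : ℝ)) * ∑ n ∈ Icc 1 ⌊x⌋₊, Λ n * wt g x n|

theorem err_mod (g : ℝ → ℝ) (x : ℝ) (d a : ℕ) : err g x d (a % d) = err g x d a := by
  unfold err
  have h : (Icc 1 ⌊x⌋₊).filter (fun n => n ≡ a % d [MOD d]) =
      (Icc 1 ⌊x⌋₊).filter (fun n => n ≡ a [MOD d]) := by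
    apply Finset.filter_congr
    intro n _
    unfold Nat.ModEq
    rw [Nat.mod_mod]
  rw [h]

theorem err_nonneg (g : ℝ → ℝ) (x : ℝ) (d a : ℕ) : 0 ≤ err g x d a := abs_nonneg _

theorem nu_nonneg {g : ℝ → ℝ} (hg : IsWt g) (x : ℝ) (H n : ℕ) : 0 ≤ nu g x H n := by
  unfold nu
  split_ifs
  · exact mul_nonneg ArithmeticFunction.vonMangoldt_nonneg
      (Pool.Agent.Helper18.BV.wt_nonneg hg _ _)
  · exact le_rfl

theorem wt_range {g : ℝ → ℝ} (hg : IsWt g) (hg0 : ∀ v, v ≤ 5 / 8 → g v = 0) {x : ℝ} (hx : 1 < x)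
    {n : ℕ} (h : wt g x n ≠ 0) : x ^ (5 / 8 : ℝ) < n ∧ (n : ℝ) < x := by
  have hlog : 0 < Real.log x := Real.log_pos hx
  have hx0 : 0 < x := by linarith
  unfold wt at h
  have h1 : g (Real.log n / Real.log x) ≠ 0 := fun h0 => h (by rw [h0, zero_div])
  have h2 : (n : ℝ) ≠ 0 := fun h0 => h (by rw [h0, div_zero])
  have hn : (0 : ℝ) < n := lt_of_le_of_ne (Nat.cast_nonneg _) (Ne.symm h2)
  constructor
  · by_contra hle
    push Not at hle
    apply h1
    apply hg0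
    rw [div_le_iff₀ hlog, ← Real.log_rpow hx0]
    exact Real.log_le_log hn hle
  · by_contra hle
    push Not at hle
    apply h1
    apply hg.zero_of_ge
    rw [le_div_iff₀ hlog, one_mul]
    exact Real.log_le_log hx0 hle

/-- Facts on `n` with nonzero weight. -/
theorem nu_range {g : ℝ → ℝ} (hg : IsWt g) (hg0 : ∀ v, v ≤ 5 / 8 → g v = 0) {x : ℝ} (hx : 1 < x)
    {H n : ℕ} (h : nu g x H n ≠ 0) :
    (n + H).Prime ∧ x ^ (5 / 8 : ℝ) < ((n + H : ℕ) : ℝ) ∧ ((n + H : ℕ) : ℝ) < x := by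
  unfold nu at h
  split_ifs at h with hp
  · exact ⟨hp, wt_range hg hg0 hx (right_ne_zero_of_mul h)⟩
  · exact absurd rfl h

theorem mem_NS {x : ℝ} {W v n : ℕ} :
    n ∈ NS x W v ↔ (⌊x ^ (1 / 2 : ℝ)⌋₊ < n ∧ n ≤ ⌊x⌋₊) ∧ n ≡ v [MOD W] := by
  unfold NS
  rw [Finset.mem_filter, Finset.mem_Ioc]

theorem sum_nu {g : ℝ → ℝ} (hg : IsWt g) (hg0 : ∀ v, v ≤ 5 / 8 → g v = 0) {x : ℝ} (hx : 1 < x)
    {H : ℕ} (hH : x ^ (1 / 2 : ℝ) + H + 1 ≤ x ^ (5 / 8 : ℝ)) {W v q a : ℕ} (Q : ℕ → Prop)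
    [DecidablePred Q] (hQ : ∀ n, (n ≡ v [MOD W] ∧ Q n) ↔ n + H ≡ a [MOD q]) :
    ∑ n ∈ (NS x W v).filter Q, nu g x H n =
      ∑ n ∈ (Icc 1 ⌊x⌋₊).filter (fun n => n ≡ a [MOD q]),
        (if n.Prime then Λ n * wt g x n else 0) := by
  have hx0 : 0 < x := by linarith
  have hs0 : 0 ≤ x ^ (1 / 2 : ℝ) := Real.rpow_nonneg hx0.le _
  apply Finset.sum_bij_ne_zero (fun n _ _ => n + H)
  · intro n hn hne
    rw [Finset.mem_filter, mem_NS] at hn
    obtain ⟨hp, h1, h2⟩ := nu_range hg hg0 hx hne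
    rw [Finset.mem_filter, Finset.mem_Icc]
    refine ⟨⟨hp.one_le, ?_⟩, ?_⟩
    · exact Nat.le_floor h2.le
    · exact (hQ n).1 ⟨hn.1.2, hn.2⟩
  · intro n _ _ n' _ _ h
    exact Nat.add_right_cancel h
  · intro q' hq hne
    rw [Finset.mem_filter, Finset.mem_Icc] at hq
    have hp : q'.Prime := by
      by_contra h
      rw [if_neg h] at hne
      exact hne rfl
    rw [if_pos hp] at hne
    have hw := wt_range hg hg0 hx (right_ne_zero_of_mul hne)
    have hHq : H ≤ q' := by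
      have : (H : ℝ) ≤ q' := by linarith
      exact_mod_cast this
    have hadd : q' - H + H = q' := Nat.sub_add_cancel hHq
    have hc : ((q' - H : ℕ) : ℝ) = q' - H := Nat.cast_sub hHq
    have h3 := (hQ (q' - H)).2 (by rw [hadd]; exact hq.2)
    refine ⟨q' - H, ?_, ?_, hadd⟩
    · rw [Finset.mem_filter, mem_NS]
      refine ⟨⟨⟨?_, ?_⟩, h3.1⟩, h3.2⟩
      · rw [Nat.floor_lt hs0, hc]
        linarith
      · exact (Nat.sub_le _ _).trans hq.1.2
    · unfold nu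
      rw [hadd, if_pos hp]
      exact hne
  · intro n _ hne
    have hp := (nu_range hg hg0 hx hne).1
    unfold nu
    rfl

/-- The sum over the primes in a class is close to the expected value. -/
theorem class_bound {g : ℝ → ℝ} (hg : IsWt g) (hg1 : ∀ v, g v ≤ 1) {x : ℝ} (hx : 3 ≤ x)
    {δ : ℝ} (hδ : ∀ T : Finset ℕ, (∀ n ∈ T, ¬ n.Prime ∧ x ^ (1 / 2 : ℝ) < n ∧ (n : ℝ) ≤ x) →
      ∑ n ∈ T, Λ n / n ≤ δ) (q a : ℕ) :
    |∑ n ∈ (Icc 1 ⌊x⌋₊).filter (fun n => n ≡ a [MOD q]),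
        (if n.Prime then Λ n * wt g x n else 0) -
      (1 / (q.totient : ℝ)) * ∑ n ∈ Icc 1 ⌊x⌋₊, Λ n * wt g x n| ≤ err g x q a + δ := by
  classical
  have hx0 : 0 < x := by linarith
  set F := (Icc 1 ⌊x⌋₊).filter (fun n => n ≡ a [MOD q]) with hF
  set A := ∑ n ∈ F, (if n.Prime then Λ n * wt g x n else 0) with hA
  set B := ∑ n ∈ F, Λ n * wt g x n with hB
  set Y := (1 / (q.totient : ℝ)) * ∑ n ∈ Icc 1 ⌊x⌋₊, Λ n * wt g x n with hY
  have hwt0 : ∀ n : ℕ, 0 ≤ Λ n * wt g x n := fun n =>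
    mul_nonneg ArithmeticFunction.vonMangoldt_nonneg (Pool.Agent.Helper18.BV.wt_nonneg hg _ _)
  have h1 : B - A = ∑ n ∈ F.filter (fun n => ¬ n.Prime), Λ n * wt g x n := by
    symm
    rw [Finset.sum_filter, hA, hB, ← Finset.sum_sub_distrib]
    apply Finset.sum_congr rfl
    intro n _
    by_cases hp : n.Prime
    · simp [hp]
    · simp [hp]
  have h2 : ∑ n ∈ F.filter (fun n => ¬ n.Prime), Λ n * wt g x n ≤ δ := by
    set T := (F.filter (fun n => ¬ n.Prime)).filter (fun n : ℕ => x ^ (1 / 2 : ℝ) < n) with hT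
    have h3 : ∑ n ∈ F.filter (fun n => ¬ n.Prime), Λ n * wt g x n =
        ∑ n ∈ T, Λ n * wt g x n := by
      symm
      apply Finset.sum_subset (Finset.filter_subset _ _)
      intro n hn hn'
      have h4 : (n : ℝ) ≤ x ^ (1 / 2 : ℝ) := by
        by_contra hlt
        exact hn' (Finset.mem_filter.2 ⟨hn, not_le.1 hlt⟩)
      rw [Pool.Agent.Helper18.BV.wt_zero hg (by linarith) h4, mul_zero]
    rw [h3]
    refine le_trans ?_ (hδ T ?_)
    · apply Finset.sum_le_sum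
      intro n _
      unfold wt
      rw [← mul_div_assoc]
      apply div_le_div_of_nonneg_right _ (Nat.cast_nonneg _)
      exact mul_le_of_le_one_right ArithmeticFunction.vonMangoldt_nonneg (hg1 _)
    · intro n hn
      rw [hT, Finset.mem_filter, Finset.mem_filter, hF, Finset.mem_filter, Finset.mem_Icc] at hn
      refine ⟨hn.1.2, hn.2, ?_⟩
      exact (Nat.le_floor_iff hx0.le).1 hn.1.1.1.2
  have h3 : 0 ≤ B - A := by
    rw [h1]
    exact Finset.sum_nonneg fun n _ => hwt0 n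
  have h4 : err g x q a = |B - Y| := rfl
  rw [h4]
  have h5 : |A - Y| ≤ |B - Y| + |B - A| := by
    have : A - Y = (B - Y) - (B - A) := by ring
    rw [this]
    exact abs_sub _ _
  refine h5.trans ?_
  rw [abs_of_nonneg h3, h1]
  linarith

end Pool.Agent.Helper83.MT
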