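import Pool.Agent.Helper1.MT.Defs
import Pool.Agent.Helper44.MertensProd
import Pool.Agent.Helper18.BV.WtLemmas

/-!
# Project MT, module N2: analytic estimates
-/

set_option autoImplicit false

open Finset
open scoped ArithmeticFunction.vonMangoldt

namespace Pool.Agent.Helper83.MT

open Pool.Agent.Helper1.MT

theorem nonprime_term {x : ℝ} (hx : 3 ≤ x) {n : ℕ} (hn : ¬ n.Prime) (h1 : x ^ (1 / 2 : ℝ) < n)
    (h2 : (n : ℝ) ≤ x) (hpp : IsPrimePow n) :
    Λ n / n ≤ Real.log x * x ^ (-(1 / 8) : ℝ) * (1 / (n.minFac : ℝ) ^ (3 / 2 : ℝ)) ∧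
      2 ≤ n.factorization n.minFac ∧
      n.minFac ^ n.factorization n.minFac = n := by
  have hpk := hpp.minFac_pow_factorization_eq
  have hx0 : 0 < x := by linarith
  have hn0 : (0 : ℝ) < n := lt_of_le_of_lt (Real.rpow_nonneg hx0.le _) h1
  have hn1 : n ≠ 1 := hpp.ne_one
  have hp : n.minFac.Prime := Nat.minFac_prime hn1
  have hk : 2 ≤ n.factorization n.minFac := by
    by_contra hlt
    have h3 : n.factorization n.minFac = 0 ∨ n.factorization n.minFac = 1 := by omega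
    rcases h3 with h3 | h3
    · rw [h3, pow_zero] at hpk; exact hn1 hpk.symm
    · rw [h3, pow_one] at hpk
      rw [← hpk] at hn
      exact hn hp
  refine ⟨?_, hk, hpk⟩
  have hL : Λ n = Real.log n.minFac := by
    rw [ArithmeticFunction.vonMangoldt_apply, if_pos hpp]
  have hp0 : (0 : ℝ) < n.minFac := by exact_mod_cast hp.pos
  have hL1 : Λ n ≤ Real.log x := by
    rw [hL]
    apply Real.log_le_log hp0
    exact le_trans (by exact_mod_cast Nat.minFac_le (by exact_mod_cast hn0)) h2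
  have hlogx : 0 ≤ Real.log x := Real.log_nonneg (by linarith)
  have hsq : (n.minFac : ℝ) ^ (2 : ℝ) ≤ n := by
    rw [show (2 : ℝ) = ((2 : ℕ) : ℝ) by norm_num, Real.rpow_natCast]
    have : n.minFac ^ 2 ≤ n := by
      calc n.minFac ^ 2 ≤ n.minFac ^ n.factorization n.minFac :=
            Nat.pow_le_pow_right hp.pos hk
        _ = n := hpk
    exact_mod_cast this
  have hsplit : (n : ℝ) = (n : ℝ) ^ (1 / 4 : ℝ) * (n : ℝ) ^ (3 / 4 : ℝ) := by
    rw [← Real.rpow_add hn0]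
    norm_num
  have h4 : x ^ (1 / 8 : ℝ) ≤ (n : ℝ) ^ (1 / 4 : ℝ) := by
    have : x ^ (1 / 8 : ℝ) = (x ^ (1 / 2 : ℝ)) ^ (1 / 4 : ℝ) := by
      rw [← Real.rpow_mul hx0.le]; norm_num
    rw [this]
    exact Real.rpow_le_rpow (Real.rpow_nonneg hx0.le _) h1.le (by norm_num)
  have h5 : (n.minFac : ℝ) ^ (3 / 2 : ℝ) ≤ (n : ℝ) ^ (3 / 4 : ℝ) := by
    have : (n.minFac : ℝ) ^ (3 / 2 : ℝ) = ((n.minFac : ℝ) ^ (2 : ℝ)) ^ (3 / 4 : ℝ) := by
      rw [← Real.rpow_mul hp0.le]; norm_num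
    rw [this]
    exact Real.rpow_le_rpow (Real.rpow_nonneg hp0.le _) hsq (by norm_num)
  have h6 : (0 : ℝ) < x ^ (1 / 8 : ℝ) := Real.rpow_pos_of_pos hx0 _
  have h7 : (0 : ℝ) < (n.minFac : ℝ) ^ (3 / 2 : ℝ) := Real.rpow_pos_of_pos hp0 _
  have h8 : x ^ (1 / 8 : ℝ) * (n.minFac : ℝ) ^ (3 / 2 : ℝ) ≤ n := by
    rw [hsplit]
    exact mul_le_mul h4 h5 h7.le (Real.rpow_nonneg hn0.le _)
  calc Λ n / n ≤ Real.log x / n := by
        apply div_le_div_of_nonneg_right hL1 hn0.le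
    _ ≤ Real.log x / (x ^ (1 / 8 : ℝ) * (n.minFac : ℝ) ^ (3 / 2 : ℝ)) :=
        div_le_div_of_nonneg_left hlogx (mul_pos h6 h7) h8
    _ = _ := by
        rw [Real.rpow_neg hx0.le]
        field_simp

theorem nonprime_bound : ∃ C : ℝ, 0 < C ∧ ∀ x : ℝ, 3 ≤ x → ∀ T : Finset ℕ,
    (∀ n ∈ T, ¬ n.Prime ∧ x ^ (1 / 2 : ℝ) < n ∧ (n : ℝ) ≤ x) →
    ∑ n ∈ T, Λ n / n ≤ C * Real.log x ^ 2 * x ^ (-(1 / 8) : ℝ) := by
  have hsum : Summable (fun n : ℕ => 1 / (n : ℝ) ^ (3 / 2 : ℝ)) :=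
    Real.summable_one_div_nat_rpow.2 (by norm_num)
  set S : ℝ := ∑' n : ℕ, 1 / (n : ℝ) ^ (3 / 2 : ℝ) with hS
  have hS0 : 0 ≤ S := tsum_nonneg fun n => by positivity
  refine ⟨3 * (S + 1), by positivity, ?_⟩
  intro x hx T hT
  classical
  have hx0 : 0 < x := by linarith
  have hlogx : 1 ≤ Real.log x := by
    rw [Real.le_log_iff_exp_le hx0]
    exact (Real.exp_one_lt_d9.le.trans (by norm_num)).trans hx
  set T' := T.filter IsPrimePow with hT'
  have h1 : ∑ n ∈ T, Λ n / n = ∑ n ∈ T', Λ n / n := by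
    symm
    apply Finset.sum_subset (Finset.filter_subset _ _)
    intro n hn hn'
    have : ¬ IsPrimePow n := fun h => hn' (Finset.mem_filter.2 ⟨hn, h⟩)
    rw [ArithmeticFunction.vonMangoldt_apply, if_neg this, zero_div]
  have hterm : ∀ n ∈ T', _ := fun n hn =>
    nonprime_term hx (hT n (Finset.mem_filter.1 hn).1).1 (hT n (Finset.mem_filter.1 hn).1).2.1
      (hT n (Finset.mem_filter.1 hn).1).2.2 (Finset.mem_filter.1 hn).2
  set L : ℕ := ⌊2 * Real.log x⌋₊ with hL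
  set φ : ℕ → ℕ × ℕ := fun n => (n.minFac, n.factorization n.minFac) with hφ
  have hinj : Set.InjOn φ T' := by
    intro a ha b hb hab
    have h2 := (hterm a ha).2.2
    have h3 := (hterm b hb).2.2
    simp only [hφ, Prod.mk.injEq] at hab
    rw [← h2, ← h3, hab.2, hab.1]
  have hmaps : ∀ n ∈ T', φ n ∈ (Icc 0 ⌊x⌋₊) ×ˢ (Icc 1 L) := by
    intro n hn
    obtain ⟨-, h3, h4⟩ := hterm n hn
    have hT0 := hT n (Finset.mem_filter.1 hn).1
    have hpp := (Finset.mem_filter.1 hn).2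
    have hn1 : n ≠ 1 := hpp.ne_one
    have hp : n.minFac.Prime := Nat.minFac_prime hn1
    have hnpos : 0 < n := hpp.pos
    rw [Finset.mem_product, Finset.mem_Icc, Finset.mem_Icc]
    refine ⟨⟨Nat.zero_le _, ?_⟩, ⟨by show 1 ≤ n.factorization n.minFac; omega, ?_⟩⟩
    · apply Nat.le_floor
      exact le_trans (by exact_mod_cast Nat.minFac_le hnpos) hT0.2.2
    · show n.factorization n.minFac ≤ L
      apply Nat.le_floor
      have h5 : (2 : ℝ) ^ n.factorization n.minFac ≤ x := by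
        refine le_trans ?_ hT0.2.2
        calc (2 : ℝ) ^ n.factorization n.minFac ≤ (n.minFac : ℝ) ^ n.factorization n.minFac := by
              apply pow_le_pow_left₀ (by norm_num)
              exact_mod_cast hp.two_le
          _ = n := by exact_mod_cast h4
      have h6 := Real.log_le_log (by positivity) h5
      rw [Real.log_pow] at h6
      have h7 := Real.log_two_gt_d9
      have h8 : (0 : ℝ) ≤ n.factorization n.minFac := Nat.cast_nonneg _
      nlinarith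
  have h2 : ∑ n ∈ T', 1 / (n.minFac : ℝ) ^ (3 / 2 : ℝ) ≤ L * S := by
    calc ∑ n ∈ T', 1 / (n.minFac : ℝ) ^ (3 / 2 : ℝ)
        = ∑ z ∈ T'.image φ, 1 / (z.1 : ℝ) ^ (3 / 2 : ℝ) := by
          rw [Finset.sum_image hinj]
      _ ≤ ∑ z ∈ (Icc 0 ⌊x⌋₊) ×ˢ (Icc 1 L), 1 / (z.1 : ℝ) ^ (3 / 2 : ℝ) := by
          apply Finset.sum_le_sum_of_subset_of_nonneg
          · intro z hz
            obtain ⟨n, hn, rfl⟩ := Finset.mem_image.1 hz
            exact hmaps n hn
          · intro z _ _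
            positivity
      _ = L * ∑ p ∈ Icc 0 ⌊x⌋₊, 1 / (p : ℝ) ^ (3 / 2 : ℝ) := by
          rw [Finset.sum_product, Finset.mul_sum]
          apply Finset.sum_congr rfl
          intro p _
          simp
      _ ≤ L * S := by
          apply mul_le_mul_of_nonneg_left _ (Nat.cast_nonneg _)
          exact hsum.sum_le_tsum _ (fun n _ => by positivity)
  have hLle : (L : ℝ) ≤ 2 * Real.log x := Nat.floor_le (by linarith)
  have hc : 0 ≤ Real.log x * x ^ (-(1 / 8) : ℝ) := by positivity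
  rw [h1]
  calc ∑ n ∈ T', Λ n / n
      ≤ ∑ n ∈ T', Real.log x * x ^ (-(1 / 8) : ℝ) * (1 / (n.minFac : ℝ) ^ (3 / 2 : ℝ)) :=
        Finset.sum_le_sum fun n hn => (hterm n hn).1
    _ = Real.log x * x ^ (-(1 / 8) : ℝ) * ∑ n ∈ T', 1 / (n.minFac : ℝ) ^ (3 / 2 : ℝ) := by
        rw [← Finset.mul_sum]
    _ ≤ Real.log x * x ^ (-(1 / 8) : ℝ) * (L * S) := mul_le_mul_of_nonneg_left h2 hc
    _ ≤ Real.log x * x ^ (-(1 / 8) : ℝ) * ((2 * Real.log x) * S) := by
        apply mul_le_mul_of_nonneg_left _ hc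
        exact mul_le_mul_of_nonneg_right hLle hS0
    _ ≤ 3 * (S + 1) * Real.log x ^ 2 * x ^ (-(1 / 8) : ℝ) := by
        have h9 : 0 ≤ x ^ (-(1 / 8) : ℝ) := Real.rpow_nonneg hx0.le _
        have h10 : Real.log x * x ^ (-(1 / 8) : ℝ) * ((2 * Real.log x) * S) =
          (2 * S) * (Real.log x ^ 2 * x ^ (-(1 / 8) : ℝ)) := by ring
        have h11 : 3 * (S + 1) * Real.log x ^ 2 * x ^ (-(1 / 8) : ℝ) =
          (3 * (S + 1)) * (Real.log x ^ 2 * x ^ (-(1 / 8) : ℝ)) := by ring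
        rw [h10, h11]
        apply mul_le_mul_of_nonneg_right _ (by positivity)
        linarith

/-- The product of the `1 + K / p`. -/
theorem prod_bound : ∃ C : ℝ, 0 < C ∧ ∀ (K W R : ℕ), 2 ≤ R →
    ∏ p : PS R W, (1 + (K : ℝ) * wp R W p) ≤ (C * Real.log R) ^ K := by
  obtain ⟨C, hC, hM⟩ := Pool.Agent.Helper44.sum_primesUpTo_bounds
  refine ⟨Real.exp C, Real.exp_pos _, ?_⟩
  intro K W R hR
  have hR2 : (2 : ℝ) ≤ R := by exact_mod_cast hR
  have hlogR : 0 < Real.log R := Real.log_pos (by linarith)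
  have h1 : ∑ p : PS R W, wp R W p ≤ Real.log (Real.log R) + C := by
    have h2 : ∑ p : PS R W, wp R W p = ∑ p ∈ PS R W, 1 / (p : ℝ) := by
      unfold wp
      rw [← Finset.sum_coe_sort (PS R W) (fun p : ℕ => 1 / (p : ℝ))]
    have h3 : ∑ p ∈ PS R W, 1 / (p : ℝ) ≤
        ∑ q ∈ Pool.Agent.Helper44.primesUpTo (R : ℝ), (1 : ℝ) / q := by
      apply Finset.sum_le_sum_of_subset_of_nonneg
      · intro p hp
        unfold PS at hp
        rw [Finset.mem_filter, Finset.mem_range] at hp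
        rw [Pool.Agent.Helper44.mem_primesUpTo (by positivity)]
        exact ⟨hp.2.1, by exact_mod_cast Nat.lt_succ_iff.1 hp.1⟩
      · intro p _ _
        positivity
    have h4 := (abs_le.1 (hM R hR2)).2
    rw [h2]
    linarith
  calc ∏ p : PS R W, (1 + (K : ℝ) * wp R W p)
      ≤ ∏ p : PS R W, Real.exp ((K : ℝ) * wp R W p) := by
        apply Finset.prod_le_prod
        · intro p _
          unfold wp
          positivity
        · intro p _
          have := Real.add_one_le_exp ((K : ℝ) * wp R W p)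
          linarith
    _ = Real.exp ((K : ℝ) * ∑ p : PS R W, wp R W p) := by
        rw [← Real.exp_sum, Finset.mul_sum]
    _ ≤ Real.exp ((K : ℝ) * (Real.log (Real.log R) + C)) := by
        apply Real.exp_le_exp.2
        exact mul_le_mul_of_nonneg_left h1 (Nat.cast_nonneg _)
    _ = (Real.exp C * Real.log R) ^ K := by
        rw [Real.exp_nat_mul, Real.exp_add, Real.exp_log hlogR, mul_comm]

end Pool.Agent.Helper83.MT
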